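import Mathlib
import Pool.Agent.Croft.Main
import Pool.Agent.Croft.ApproxLayer

/-!
# Croft's question on small linear sections of planar sets: a counterexample

There is a Borel set `E` of positive and finite area in the Euclidean plane and a sequence of
positive numbers `t` tending to `0` none of which is the length of the section of `E` by a line.

Sketch. Let `len E l` be the length of the section of `E` by the non-vertical line `l`. We build `E`
so that for almost every `t` there is a Borel set `N_t` of area zero which meets every slanted line
with section length exactly `t` in length at least `1/20` and every other slanted line in length
zero; then `E` together with the sets `N_t`, `t` in a sequence tending to `0`, and without a null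
family of vertical and horizontal lines, is the required set.

The set `N_t` is the limsup of compact sets formed by `marks`: pairs consisting of a line `l` with
`len l` close to `t` and a point of `l`. To make the marks rare on every line one adds to `E`, along
the walls `x = 0` and `x = 1`, many very thin layers whose wavelengths decrease rapidly; the gradient
of the section length at `l` then performs a walk, and while it moves, the direction in which the
level line of the section length through `l` is tangent to the pencil of lines through a point of `l`
sweeps over a whole interval of points of `l`. A point is marked when this direction is hit: there the
neighbouring lines through the point have almost the same section length, and the marks produced at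
different scales are shown to be rare on every line by a Vitali covering argument.
-/

open MeasureTheory

namespace Pool.Agent.Results.MP_f884a2_an.CroftCounterexample

/-- There is a Borel set `E` of positive finite area in the plane such that for every `t₀ > 0` some
`t` with `0 < t < t₀` is not the length of the section of `E` by any line `{p + s d : s ∈ ℝ}`,
`‖d‖ = 1`. -/
theorem result : ∃ E : Set (EuclideanSpace ℝ (Fin 2)), MeasurableSet E ∧
    0 < volume E ∧ volume E < ⊤ ∧
    ∀ t₀ : ℝ, 0 < t₀ → ∃ t : ℝ, 0 < t ∧ t < t₀ ∧
      ∀ p d : EuclideanSpace ℝ (Fin 2), ‖d‖ = 1 →
        volume {s : ℝ | p + s • d ∈ E} ≠ ENNReal.ofReal t :=
  Pool.Agent.Croft.final_of_approx
    (fun hw hw1 hα hr hr1 hA hαA hY hη => Pool.Agent.Croft.Approx.approx_layer hw hw1 hα hr hr1 hA hαA hY hη)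

end Pool.Agent.Results.MP_f884a2_an.CroftCounterexample
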